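import Pool.Agent.W811.LW.Stm2
import Pool.Agent.W86.LW.FIN

/-!
From the digits to the product, slowly growing density.
-/

set_option autoImplicit false
open Finset Filter Topology
open scoped ENNReal

namespace Pool.Agent.W664.LW

open Pool.Agent.W811.LW

theorem finb (h : INDB) (hs : SQ2) : FINB := by
  intro L κ hL hκm hκ1 hcnt
  obtain ⟨b, β, M, hM0, hb, hF⟩ := h L κ 1000 (1 / 4) (Real.sqrt 2) hL hκm hκ1 hcnt le_rfl
    (by norm_num) (by norm_num) hs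
  obtain ⟨D, hDe⟩ : ∃ D : ℝ, D = ((1000 : ℕ) : ℝ) ^ 4 := ⟨_, rfl⟩
  rw [← hDe] at hb
  have hD : 1 < D := by rw [hDe]; norm_num
  have hD2 : 2 ≤ D := by rw [hDe]; norm_num
  have hD0 : 0 < D := by linarith
  obtain ⟨M1, hM1e⟩ : ∃ M1 : ℝ, M1 = max M 1 := ⟨_, rfl⟩
  have hM1 : 1 ≤ M1 := by rw [hM1e]; exact le_max_right _ _
  have hMM1 : M ≤ M1 := by rw [hM1e]; exact le_max_left _ _
  have hM10 : 0 < M1 := by linarith
  refine ⟨Real.sqrt 2, β, D, 1 / (2 * M1 ^ 2 * D ^ 2), hD, by positivity, ?_⟩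
  intro k q p p' hq hqD hqp
  obtain ⟨x, hx⟩ : ∃ x : ℝ, x = κ (L k) := ⟨_, rfl⟩
  have hx1 : 1 ≤ x := by rw [hx]; exact hκ1 _
  have hx0 : 0 < x := by linarith
  rw [← hx] at hqD ⊢
  obtain ⟨c3, hc3⟩ : ∃ c3 : ℝ, c3 = 1 / (M1 ^ 2 * x ^ 2) := ⟨_, rfl⟩
  have hc3p : 0 < c3 := by rw [hc3]; positivity
  have hcc : 1 / (2 * M1 ^ 2 * D ^ 2) / x ^ 2 = 1 / D ^ 2 * (c3 / 2) := by
    rw [hc3]
    field_simp
  rw [hcc] at hqD ⊢
  have hD4 : 1 / D ^ 2 ≤ 1 / 4 := by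
    apply one_div_le_one_div_of_le (by norm_num)
    nlinarith
  have hc31 : c3 ≤ 1 := by
    rw [hc3, div_le_one (by positivity)]
    have h1 : 1 ≤ M1 ^ 2 := one_le_pow₀ hM1
    have h2 : 1 ≤ x ^ 2 := one_le_pow₀ hx1
    nlinarith
  have hcA : 1 / D ^ 2 * (c3 / 2) ≤ 1 / 4 := by
    have h1 : 1 / D ^ 2 * (c3 / 2) ≤ 1 / 4 * (1 / 2) :=
      mul_le_mul hD4 (by linarith) (by positivity) (by norm_num)
    linarith
  have hcB : 1 / D ^ 2 * (c3 / 2) ≤ c3 / 2 := by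
    have h1 : 1 / D ^ 2 * (c3 / 2) ≤ 1 * (c3 / 2) :=
      mul_le_mul_of_nonneg_right (by linarith) (by positivity)
    linarith
  have hq0 : (0 : ℝ) < q := by exact_mod_cast hq
  set δ : ℝ := |(q : ℝ) * Real.sqrt 2 - p| with hδ
  have hbad : 1 / 4 ≤ (q : ℝ) * δ := hs q p hq
  have hδ0 : 0 < δ := by
    by_contra hcon
    have : δ = 0 := le_antisymm (not_lt.mp hcon) (abs_nonneg _)
    rw [this, mul_zero] at hbad
    norm_num at hbad
  have hex : ∃ i : ℕ, 1 < D ^ (2 * i) * δ := by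
    obtain ⟨i, hi⟩ := pow_unbounded_of_one_lt (1 / δ) hD
    refine ⟨i, ?_⟩
    have h1 : D ^ i ≤ D ^ (2 * i) := pow_le_pow_right₀ hD.le (by omega)
    have h2 : 1 / δ < D ^ (2 * i) := lt_of_lt_of_le hi h1
    rwa [div_lt_iff₀ hδ0] at h2
  classical
  obtain ⟨j, hj1, hj2⟩ : ∃ j : ℕ, D ^ (2 * j) * δ ≤ 1 ∧ 1 < D ^ (2 * j + 2) * δ := by
    have hfs := Nat.find_spec hex
    have hne : Nat.find hex ≠ 0 := by
      intro h0
      rw [h0] at hfs
      simp at hfs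
      linarith
    obtain ⟨j, hj⟩ := Nat.exists_eq_succ_of_ne_zero hne
    refine ⟨j, ?_, ?_⟩
    · have := Nat.find_min hex (m := j) (by omega)
      exact not_lt.mp this
    · rw [hj] at hfs
      have he : 2 * j.succ = 2 * j + 2 := by omega
      rwa [he] at hfs
  have hjL : 2 * j ≤ L k := by
    have h1 : D ^ (2 * j) ≤ D ^ (L k) := by
      have h2 : D ^ (2 * j) * δ ≤ 4 * (q : ℝ) * δ := by linarith
      have h3 : D ^ (2 * j) ≤ 4 * (q : ℝ) := le_of_mul_le_mul_right h2 hδ0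
      have h4 : (q : ℝ) ≤ 1 / 4 * D ^ (L k) :=
        hqD.trans (mul_le_mul_of_nonneg_right hcA (by positivity))
      linarith
    exact (pow_le_pow_iff_right₀ hD).mp h1
  obtain ⟨t, ht⟩ : ∃ t, L k = 2 * j + t := ⟨L k - 2 * j, by omega⟩
  have hFk := hF j t k ht
  rw [← hx] at hFk
  have hv : ((q, p, p') : V3) ∈ famV D (Real.sqrt 2) j := by
    refine ⟨?_, ?_⟩
    · show q ≠ 0
      omega
    · show |(q : ℝ) * Real.sqrt 2 - (p : ℝ)| * D ^ (2 * j) ≤ 1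
      rw [mul_comm]; exact hj1
  have hkey0 := Pool.Agent.W86.LW.key D (Real.sqrt 2) hD 1000 hDe j t (b (j + t)) (M * x)
    (by positivity) hFk (q, p, p') hv
  have hkey : c3 ≤ max |aV D t (b (j + t)) (q, p, p')| |bV D j t (q, p, p')| := by
    refine le_trans ?_ hkey0
    rw [hc3, ← mul_pow]
    apply one_div_le_one_div_of_le
    · have : (0 : ℝ) < max (M * x) 1 := lt_of_lt_of_le one_pos (le_max_right _ _)
      positivity
    · apply pow_le_pow_left₀ (le_trans zero_le_one (le_max_right _ _))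
      apply max_le
      · exact mul_le_mul_of_nonneg_right hMM1 hx0.le
      · nlinarith
  have hPt : (0 : ℝ) < D ^ t := pow_pos hD0 _
  have hPL : (0 : ℝ) < D ^ (2 * j + t) := pow_pos hD0 _
  rw [ht] at hqD ⊢
  have hbq : (q : ℝ) / D ^ (2 * j + t) ≤ c3 / 2 := by
    rw [div_le_iff₀ hPL]
    exact hqD.trans (mul_le_mul_of_nonneg_right hcB hPL.le)
  have hbV : |bV D j t (q, p, p')| ≤ c3 / 2 := by
    unfold bV
    show |(q : ℝ) / D ^ (2 * j + t)| ≤ c3 / 2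
    rw [abs_of_pos (div_pos hq0 hPL)]
    exact hbq
  have haV : c3 ≤ |aV D t (b (j + t)) (q, p, p')| := by
    rcases le_max_iff.mp hkey with h1 | h1
    · exact h1
    · exfalso; linarith
  have haV2 : c3 ≤ D ^ t * |(q : ℝ) * b (j + t) - p'| := by
    have : |aV D t (b (j + t)) (q, p, p')| = D ^ t * |(q : ℝ) * b (j + t) - p'| := by
      unfold aV
      show |D ^ t * ((q : ℝ) * b (j + t) - (p' : ℝ))| = _
      rw [abs_mul, abs_of_pos hPt]
    rwa [this] at haV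
  have hbn := hb (j + t)
  have htri : |(q : ℝ) * b (j + t) - p'| ≤ |(q : ℝ) * β - p'| + q * |β - b (j + t)| := by
    have e1 : (q : ℝ) * b (j + t) - p' = ((q : ℝ) * β - p') - q * (β - b (j + t)) := by ring
    rw [e1]
    refine (abs_sub _ _).trans ?_
    rw [abs_mul (q : ℝ), abs_of_pos hq0]
  have hsm : D ^ t * ((q : ℝ) * |β - b (j + t)|) ≤ c3 / 2 := by
    have h1 : D ^ t * ((q : ℝ) * |β - b (j + t)|) ≤ D ^ t * ((q : ℝ) * (1 / D ^ (2 * (j + t)))) := by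
      gcongr
    have h2 : D ^ t * ((q : ℝ) * (1 / D ^ (2 * (j + t)))) = (q : ℝ) / D ^ (2 * j + t) := by
      have e : D ^ (2 * (j + t)) = D ^ (2 * j + t) * D ^ t := by
        rw [← pow_add]; congr 1; ring
      rw [e]
      field_simp
    rw [h2] at h1
    exact h1.trans hbq
  have hfin : c3 / 2 ≤ D ^ t * |(q : ℝ) * β - p'| := by
    have h1 : D ^ t * |(q : ℝ) * b (j + t) - p'| ≤
        D ^ t * (|(q : ℝ) * β - p'| + q * |β - b (j + t)|) :=
      mul_le_mul_of_nonneg_left htri hPt.le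
    rw [mul_add] at h1
    linarith
  have hδ2 : 1 / D ^ 2 ≤ D ^ (2 * j) * δ := by
    rw [div_le_iff₀ (by positivity)]
    have e : D ^ (2 * j + 2) * δ = D ^ (2 * j) * δ * D ^ 2 := by rw [pow_add]; ring
    rw [e] at hj2
    exact hj2.le
  have hprod : D ^ (2 * j + t) * (δ * |(q : ℝ) * β - p'|) =
      (D ^ (2 * j) * δ) * (D ^ t * |(q : ℝ) * β - p'|) := by
    rw [pow_add]; ring
  rw [hprod]
  exact mul_le_mul hδ2 hfin (by positivity) (by positivity)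

end Pool.Agent.W664.LW
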